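import Pool.Agent.H74.BTL.Targets

/-! module COR of MP_60ff71_an (board btl): roots of a fixed element are hit rarely -/

set_option autoImplicit false

open scoped ENNReal RealInnerProductSpace Pointwise
open Filter Topology

universe u

namespace Pool.Agent.H38.BTL

open Pool.Agent.H74.BTL

lemma pr_mem {G : Type*} [Group G] {J : Type*} (t : J → G) (N : Subgroup G) (h : ∀ j, t j ∈ N)
    (w : List J) : pr t w ∈ N := by
  induction w with
  | nil => exact N.one_mem
  | cons j w ih =>
    rw [pr_cons]
    exact N.mul_mem (h j) ih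

theorem pf_COR (h1 : T_HIT.{u}) : T_COR.{u} := by
  classical
  intro G _ K J _ _ t r m hS v x k l hv
  by_cases hex : ∃ y0 : List J, (v * pr t y0) ^ k = x ∧ x ∉ K
  · obtain ⟨y0, hy0, hxK⟩ := hex
    set N : Subgroup G := Subgroup.normalizer (K : Set G) with hN
    have hz : ∀ y : List J, v * pr t y ∈ N := fun y => N.mul_mem hv (pr_mem t N hS.mem y)
    have hxN : x ∈ N := by
      rw [← hy0]
      exact N.pow_mem (hz y0) k
    have hfinx : IsOfFinOrder x := isOfFinOrder_iff_pow_eq_one.2 ⟨m, hS.m0, hS.tor x⟩
    have hzp : Subgroup.zpowers x ≤ N := by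
      rw [Subgroup.zpowers_le]
      exact hxN
    set K' : Subgroup G := K ⊔ Subgroup.zpowers x with hK'
    have hcoe : (K' : Set G) = (K : Set G) * (Subgroup.zpowers x : Set G) :=
      Subgroup.coe_mul_of_right_le_normalizer_left K (Subgroup.zpowers x) hzp
    have hKf : (K : Set G).Finite := by
      have := hS.fin
      exact Set.toFinite _
    have hxf : (Subgroup.zpowers x : Set G).Finite := finite_zpowers.2 hfinx
    have hK'f : (K' : Set G).Finite := by
      rw [hcoe]
      exact hKf.mul hxf
    have hfin' : Finite K' := hK'f.to_subtype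
    have hlt : Nat.card K < Nat.card K' := by
      have h2 : (K : Set G) ⊂ (K' : Set G) := by
        refine ⟨SetLike.coe_subset_coe.2 le_sup_left, fun hcon => hxK (hcon ?_)⟩
        exact (le_sup_right : Subgroup.zpowers x ≤ K') (Subgroup.mem_zpowers x)
      exact Set.ncard_lt_ncard h2 hK'f
    have hnV := hS.max K' hfin' hlt
    have hit := h1 G (Subgroup.normalizer (K' : Set G)) J t r hS.r0 hS.r1 hS.ctr hnV v⁻¹ l
    refine (EE_mono l fun y _ => ind_mono ?_).trans hit
    rintro ⟨hy, -⟩
    rw [inv_inv]
    have hcomm : v * pr t y ∈ Subgroup.normalizer (Subgroup.zpowers x : Set G) := by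
      have hc : (v * pr t y) * x * (v * pr t y)⁻¹ = x := by
        rw [← hy, ← pow_succ', pow_succ, mul_inv_cancel_right]
      rw [Subgroup.mem_normalizer_iff_map_conj_eq, MonoidHom.map_zpowers]
      change Subgroup.zpowers ((v * pr t y) * x * (v * pr t y)⁻¹) = Subgroup.zpowers x
      rw [hc]
    exact Subgroup.normalizer_inf_normalizer_le_normalizer_sup K (Subgroup.zpowers x) ⟨hz y, hcomm⟩
  · have h2 : ∀ y : List J, ind ((v * pr t y) ^ k = x ∧ x ∉ K) = 0 := by
      intro y
      exact ind_false fun h => hex ⟨y, h⟩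
    simp only [h2, EE_fzero]
    exact pow_nonneg hS.r0 l

end Pool.Agent.H38.BTL
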