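import Pool.Agent.H74.BTL.Targets
import Pool.Agent.H62.LP.Main

/-! module LSB of MP_60ff71_an (board btl): the Littlewood exponent of subgroups -/

set_option autoImplicit false

open scoped ENNReal

universe u

namespace Pool.Agent.H38.BTL

open Pool.Agent.H74.BTL
open Pool.Agent.H62.LP (Lit)

theorem pf_LSB : T_LSB.{u} := by
  intro G _ H hG
  have h := Pool.Agent.H62.LP.main (Γ := H) (G := G) 1 H
    { toFun := fun x _ => x, map_one' := rfl, map_mul' := fun _ _ => rfl }
    (fun y => ⟨y 0, by
      funext i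
      rw [Subsingleton.elim i 0]
      rfl⟩)
  have e : (((1 + 1) / 2 : ℕ) : ℝ≥0∞) = 1 := by norm_num
  rw [e, one_mul] at h
  have h1 : Lit G - 1 < ∞ := lt_of_le_of_lt tsub_le_self hG
  have h2 : Lit H - 1 < ∞ := lt_of_le_of_lt h h1
  by_contra hcon
  rw [not_lt_top_iff] at hcon
  rw [hcon] at h2
  simp at h2

end Pool.Agent.H38.BTL
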